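import Pool.Agent.Work.MP_70e905_nt.CL3.N53
import Pool.Agent.Work.BV.PIV

/-!
# The cluster lemma for four clusters, and with `N` clusters and probability more than `1/4`, unconditional
-/

namespace PoolCL

theorem clusterP_all (N : ℕ) (hN : 1 ≤ N) : ClusterP N (1 / 4 + 1 / 10 ^ 19) :=
  clusterP3 (fun t ht => BV.ld_all t ht) BV.pnt_all N hN

theorem clusterPlus_three : PoolQ4.ClusterPlus 3 :=
  clusterPlus_of_P 3 (1 / 4 + 1 / 10 ^ 19) (by norm_num) (clusterP_all 4 (by norm_num))

end PoolCL
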