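import Mathlib

/-!
# Module CL3.Num3 : the numerical lemmas with a general pair constant
-/

namespace PoolCL

theorem num_cluster3 (m p η c H V E T1 T2 T3 : ℝ) (hp : 0 < p) (hη : 0 ≤ η) (hc : 0 ≤ c)
    (hpc : p * (c + η) ≤ 1) (hm : 0 < m)
    (hT1 : 0 < T1) (hT2 : 0 < T2) (hH : 0 ≤ H) (hV : m * T2 ≤ V)
    (hE : E ≤ m ^ 2 * T3)
    (hC : V ^ 2 ≤ H * (V + E)) (hT : T1 * T3 ≤ c * T2 ^ 2) (hA : T1 ≤ η * (m * T2)) :
    p * T1 ≤ H := by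
  have hu : 0 < m * T2 := mul_pos hm hT2
  have hV0 : 0 < V := lt_of_lt_of_le hu hV
  have h1 : T1 * V ≤ η * V ^ 2 := by
    have a1 : T1 * V ≤ η * (m * T2) * V := mul_le_mul_of_nonneg_right hA hV0.le
    have a2 : η * (m * T2) * V ≤ η * V * V :=
      mul_le_mul_of_nonneg_right (mul_le_mul_of_nonneg_left hV hη) hV0.le
    calc T1 * V ≤ η * V * V := a1.trans a2
      _ = η * V ^ 2 := by ring
  have h2 : T1 * E ≤ c * V ^ 2 := by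
    have a1 : T1 * E ≤ T1 * (m ^ 2 * T3) := mul_le_mul_of_nonneg_left hE hT1.le
    have a2 : m ^ 2 * (T1 * T3) ≤ m ^ 2 * (c * T2 ^ 2) :=
      mul_le_mul_of_nonneg_left hT (by positivity)
    have a3 : (m * T2) ^ 2 ≤ V ^ 2 := pow_le_pow_left₀ hu.le hV 2
    have a4 : c * (m * T2) ^ 2 ≤ c * V ^ 2 := mul_le_mul_of_nonneg_left a3 hc
    calc T1 * E ≤ T1 * (m ^ 2 * T3) := a1
      _ = m ^ 2 * (T1 * T3) := by ring
      _ ≤ m ^ 2 * (c * T2 ^ 2) := a2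
      _ = c * (m * T2) ^ 2 := by ring
      _ ≤ _ := a4
  have h3 : T1 * (V + E) ≤ (c + η) * V ^ 2 := by
    calc T1 * (V + E) = T1 * V + T1 * E := by ring
      _ ≤ η * V ^ 2 + c * V ^ 2 := add_le_add h1 h2
      _ = _ := by ring
  have h4 : T1 * V ^ 2 ≤ H * ((c + η) * V ^ 2) := by
    calc T1 * V ^ 2 ≤ T1 * (H * (V + E)) := mul_le_mul_of_nonneg_left hC hT1.le
      _ = H * (T1 * (V + E)) := by ring
      _ ≤ H * ((c + η) * V ^ 2) := mul_le_mul_of_nonneg_left h3 hH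
  have h5 : T1 ≤ H * (c + η) := by
    have hV2 : 0 < V ^ 2 := by positivity
    refine le_of_mul_le_mul_right ?_ hV2
    calc T1 * V ^ 2 ≤ H * ((c + η) * V ^ 2) := h4
      _ = H * (c + η) * V ^ 2 := by ring
  calc p * T1 ≤ p * (H * (c + η)) := mul_le_mul_of_nonneg_left h5 hp.le
    _ = H * (p * (c + η)) := by ring
    _ ≤ H * 1 := mul_le_mul_of_nonneg_left hpc hH
    _ = H := mul_one H

theorem ineq_T3 (e : ℝ) (he0 : 0 < e) (he1 : e ≤ 1 / 10 ^ 21) (K : ℕ) (hK : 2 ≤ K)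
    (g rW' r k lx X q2 U1' U2' : ℝ) (hg : 1 ≤ g) (hg' : g ≤ 1 + e)
    (hrW : 0 < rW') (hr : 0 ≤ r) (hk : 0 < k) (hlx : 0 < lx) (hX : 0 < X) (hq2 : 0 ≤ q2)
    (hU1 : 0 < U1') (hU2 : 0 < U2') (hrk : rW' * r ≤ (1 + e) * k) :
    (g + e) * (X * rW' * lx) * (q2 * r) * U2' ^ K *
        ((4 - 1 / 10 ^ 17) * (X * q2 * (U1' ^ 4 * U2' ^ (K - 2) / (k * lx)))) ≤
      (4 - 6 / 10 ^ 18) * ((1 - 4 * e) * X * q2 * U1' ^ 2 * U2' ^ (K - 1)) ^ 2 := by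
  obtain ⟨n, rfl⟩ : ∃ n, K = n + 2 := ⟨K - 2, by omega⟩
  have e1 : n + 2 - 2 = n := by omega
  have e2 : n + 2 - 1 = n + 1 := by omega
  rw [e1, e2]
  set M : ℝ := X ^ 2 * q2 ^ 2 * U1' ^ 4 * (U2' ^ (n + 1)) ^ 2 with hM
  have hM0 : 0 ≤ M := by positivity
  have e3 : (g + e) * (X * rW' * lx) * (q2 * r) * U2' ^ (n + 2) *
        ((4 - 1 / 10 ^ 17) * (X * q2 * (U1' ^ 4 * U2' ^ n / (k * lx)))) =
      (g + e) * (rW' * r / k) * (4 - 1 / 10 ^ 17) * M := by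
    rw [hM]
    field_simp
    ring
  have e4 : (4 - 6 / 10 ^ 18) * ((1 - 4 * e) * X * q2 * U1' ^ 2 * U2' ^ (n + 1)) ^ 2 =
      (4 - 6 / 10 ^ 18) * (1 - 4 * e) ^ 2 * M := by
    rw [hM]
    ring
  rw [e3, e4]
  refine mul_le_mul_of_nonneg_right ?_ hM0
  have h1 : rW' * r / k ≤ 1 + e := by
    rw [div_le_iff₀ hk]
    exact hrk
  have h0 : 0 ≤ rW' * r / k := by positivity
  have h2 : (g + e) * (rW' * r / k) ≤ (1 + e + e) * (1 + e) :=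
    mul_le_mul (by linarith) h1 h0 (by linarith)
  have h3 : (g + e) * (rW' * r / k) * (4 - 1 / 10 ^ 17) ≤
      (1 + e + e) * (1 + e) * (4 - 1 / 10 ^ 17) :=
    mul_le_mul_of_nonneg_right h2 (by norm_num)
  refine h3.trans ?_
  have he2 : e ^ 2 ≤ e / 10 ^ 21 := by nlinarith
  have p1 : (1 + e + e) * (1 + e) ≤ 1 + 4 * e := by nlinarith
  have p2 : 1 - 8 * e ≤ (1 - 4 * e) ^ 2 := by nlinarith
  have p3 : (1 + e + e) * (1 + e) * (4 - 1 / 10 ^ 17) ≤ (1 + 4 * e) * (4 - 1 / 10 ^ 17) :=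
    mul_le_mul_of_nonneg_right p1 (by norm_num)
  have p4 : (4 - 6 / 10 ^ 18) * (1 - 8 * e) ≤ (4 - 6 / 10 ^ 18) * (1 - 4 * e) ^ 2 :=
    mul_le_mul_of_nonneg_left p2 (by norm_num)
  have p5 : (1 + 4 * e) * (4 - 1 / 10 ^ 17) ≤ (4 - 6 / 10 ^ 18) * (1 - 8 * e) := by
    nlinarith
  linarith

end PoolCL
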