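import Pool.Agent.Work.MP_70e905_nt.MT.G3
import Pool.Agent.Work.MP_70e905_nt.CL.N1
import Pool.Agent.Work.MP_70e905_nt.CL.N3
import Pool.Agent.Work.MP_70e905_nt.CL3.Num3
import Pool.Agent.Work.MP_70e905_nt.M3.E3

/-!
# Module CL3.N43 : assembly for configurations, `N` clusters, pair constant `4 - 10 ^ (-17)`

As `CL/N4.lean`, with the pair bound `E3_four` of M3 in place of `E3_up`.
-/

set_option autoImplicit false

namespace PoolCL

open Finset Pool.Agent.Work.MP_73869e_nt.TH Pool.Agent.Work.MP_70e905_nt.MT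
  Pool.Agent.Work.MP_70e905_nt.M3

private theorem N43_card (N m : ℕ) (hm : 0 < m) (k : Fin N) :
    #(univ.filter (fun i : Fin (N * m) => (i : ℕ) / m = (k : ℕ))) = m := by
  have h : #(univ.filter (fun i : Fin (N * m) => (i : ℕ) / m = (k : ℕ))) = #(range m) := by
    refine Finset.card_nbij (fun i : Fin (N * m) => (i : ℕ) % m) ?_ ?_ ?_
    · intro i _
      exact mem_coe.2 (mem_range.2 (Nat.mod_lt _ hm))
    · intro i hi j hj hij
      have hi' := (mem_filter.1 (mem_coe.1 hi)).2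
      have hj' := (mem_filter.1 (mem_coe.1 hj)).2
      have h1 := Nat.div_add_mod (i : ℕ) m
      have h2 := Nat.div_add_mod (j : ℕ) m
      have h3 : (i : ℕ) % m = (j : ℕ) % m := hij
      apply Fin.ext
      rw [← h1, ← h2, h3, hi', hj']
    · intro r hr
      simp only [coe_range, Set.mem_Iio] at hr
      have hlt : m * (k : ℕ) + r < N * m := by
        have h1 : (k : ℕ) + 1 ≤ N := k.2
        calc m * (k : ℕ) + r < m * (k : ℕ) + m := by omega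
          _ = ((k : ℕ) + 1) * m := by ring
          _ ≤ N * m := Nat.mul_le_mul_right m h1
      refine ⟨⟨m * (k : ℕ) + r, hlt⟩, ?_, ?_⟩
      · refine mem_coe.2 (mem_filter.2 ⟨mem_univ _, ?_⟩)
        show (m * (k : ℕ) + r) / m = (k : ℕ)
        rw [Nat.mul_add_div hm, Nat.div_eq_of_lt hr, add_zero]
      · show (m * (k : ℕ) + r) % m = r
        rw [Nat.mul_add_mod, Nat.mod_eq_of_lt hr]
  simpa using h

private theorem N43_exp (K D₀ : ℕ) (e : ℝ) (he : 0 < e) (he1 : e ≤ 1 / 1000) (hK : 1 ≤ K)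
    (hKD : K < D₀) (h2 : 8 * (K : ℝ) ^ 2 ≤ e * D₀) :
    1 ≤ Real.exp (2 * K / D₀) ∧ Real.exp (2 * K / D₀) ≤ 1 + e := by
  have hK' : (1 : ℝ) ≤ K := by exact_mod_cast hK
  have hD : (0 : ℝ) < D₀ := by exact_mod_cast (by omega : 0 < D₀)
  have h1 : (2 * K / D₀ : ℝ) ≤ e / 4 := by
    rw [div_le_iff₀ hD]
    nlinarith
  have h0 : 0 ≤ (2 * K / D₀ : ℝ) := by positivity
  refine ⟨Real.one_le_exp h0, ?_⟩
  have h3 := Real.exp_bound' h0 (by linarith) (n := 2) (by norm_num)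
  have h4 : ∑ m ∈ range 2, (2 * K / D₀ : ℝ) ^ m / m.factorial = 1 + 2 * K / D₀ := by
    simp [Finset.sum_range_succ]
  rw [h4] at h3
  have h5 : (2 * K / D₀ : ℝ) ^ 2 ≤ e / 4 := by
    have : (2 * K / D₀ : ℝ) ^ 2 ≤ (e / 4) ^ 2 := pow_le_pow_left₀ h0 h1 2
    nlinarith
  refine h3.trans ?_
  norm_num at h5 ⊢
  linarith

private theorem N43_core (hLD : ∀ t : ℝ, t < 1 / 2 → LD t) (hPNT : PNT) (η e e₀ : ℝ) (hη : 0 < η)
    (hη1 : η ≤ 1) (he : e = η / 1000) (hee : 2 * e ≤ e₀) (hes : e ≤ 1 / 10 ^ 21)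
    (hE3 : ∀ (K L D₀ : ℕ) (s δ t₀ : ℝ), Par K L D₀ s δ t₀ e₀ → ∀ W A₀ C : ℕ, ∃ X₀ : ℕ,
      ∀ c : Cfg K, c.Ok D₀ W A₀ C → X₀ ≤ c.x → Conc c W L δ t₀ e₀ → ∀ i j : Fin K, i ≠ j →
      ∑ z ∈ (c.dom W).filter (fun z => (c.a i * z + c.b i).Prime ∧ (c.a j * z + c.b j).Prime),
          c.w W L s δ t₀ z ≤
        (4 - 1 / 10 ^ 17) * Hm c W L s δ t₀)
    (N : ℕ) (hN1 : 1 ≤ N) (C₀ : ℝ) (hC₀ : 1 ≤ C₀)
    (hN : ∀ (K D₀ W A₀ C : ℕ) (δ τ : ℝ), 0 < τ → ∃ X₀ : ℕ,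
      ∀ c : Cfg K, c.Ok D₀ W A₀ C → X₀ ≤ c.x → ∀ t : ℝ, τ ≤ t → t ≤ 1 →
      Nz (c.P W δ) ((c.x : ℝ) ^ t) ≤ C₀ * (c.κ W * Real.log c.x) * t)
    (m L D₀ : ℕ) (hm : m = 2 ^ L) (hL : 10 ^ 8 * N * C₀ ^ 2 / η ^ 3 ≤ L)
    (hKD : N * m < D₀) (h2' : 8 * ((N * m : ℕ) : ℝ) ^ 2 ≤ e * D₀) (W A₀ C : ℕ) :
    ∃ X₀ : ℕ, ∀ c : Cfg (N * m), c.Ok D₀ W A₀ C → X₀ ≤ c.x →
      ∃ w : ℕ → ℝ, (∀ z, 0 ≤ w z) ∧ ∑ z ∈ c.dom W, w z = 1 ∧ ∀ k : Fin N, 1 / 4 + 1 / 10 ^ 19 ≤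
        ∑ z ∈ (c.dom W).filter (fun z => ∃ i : Fin (N * m), (i : ℕ) / m = (k : ℕ) ∧
          (c.a i * z + c.b i).Prime), w z := by
  have he0 : 0 < e := by rw [he]; positivity
  have he1 : e ≤ 1 / 1000 := by rw [he]; linarith
  have hNp : (1 : ℝ) ≤ N := by exact_mod_cast hN1
  have hN0 : (0 : ℝ) < N := by linarith
  have hm0 : 0 < m := by rw [hm]; positivity
  have hC0 : 0 < C₀ := by linarith
  have hL1 : 1 ≤ L := by
    have h1 : (1 : ℝ) ≤ C₀ ^ 2 := one_le_pow₀ hC₀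
    have h3 : η ^ 3 ≤ 1 := pow_le_one₀ hη.le hη1
    have h4 : (0 : ℝ) < 10 ^ 8 * N * C₀ ^ 2 / η ^ 3 := by positivity
    have h5 : (0 : ℝ) < L := lt_of_lt_of_le h4 hL
    exact_mod_cast h5
  have hm2 : 2 ≤ m := by
    rw [hm]
    calc 2 = 2 ^ 1 := by norm_num
      _ ≤ 2 ^ L := Nat.pow_le_pow_right (by norm_num) hL1
  have hK2 : 2 ≤ N * m := by nlinarith
  have hKex : ∃ K : ℕ, K = N * m := ⟨_, rfl⟩
  have hK1 : 1 ≤ N * m := by omega
  have hKr : (1 : ℝ) ≤ ((N * m : ℕ) : ℝ) := by exact_mod_cast hK1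
  have hKcast : ((N * m : ℕ) : ℝ) = N * m := by push_cast; ring
  have hLr : (1 : ℝ) ≤ L := by exact_mod_cast hL1
  have hmr : (0 : ℝ) < m := by exact_mod_cast hm0
  set t₀ : ℝ := e * e / (8 * (N * m : ℕ) * C₀ * L) with ht₀
  have ht₀p : 0 < t₀ := by positivity
  set s : ℝ := e / (10 * ((N * m : ℕ) + 1)) with hs
  have hsp : 0 < s := by positivity
  have hs1 : s ≤ e / 10 := by
    rw [hs]
    apply div_le_div_of_nonneg_left he0.le (by norm_num)
    linarith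
  have hsK : s * Real.log ((N * m : ℕ) + 1) ≤ 1 / 10 := by
    have h1 : Real.log (((N * m : ℕ) : ℝ) + 1) ≤ (N * m : ℕ) + 1 := by
      have := Real.log_le_sub_one_of_pos (x := ((N * m : ℕ) : ℝ) + 1) (by linarith)
      linarith
    calc s * Real.log ((N * m : ℕ) + 1) ≤ s * ((N * m : ℕ) + 1) :=
          mul_le_mul_of_nonneg_left h1 hsp.le
      _ = e / 10 := by rw [hs]; field_simp
      _ ≤ 1 / 10 := by linarith
  have hLδ : (2 : ℝ) ^ L * t₀ ≤ e / 2 := by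
    have h1 : ((N * m : ℕ) : ℝ) = N * 2 ^ L := by rw [hm]; push_cast; ring
    have h2 : (2 : ℝ) ^ L * t₀ = e * e / (8 * N * C₀ * L) := by
      rw [ht₀, h1]
      field_simp
    rw [h2]
    rw [div_le_iff₀ (by positivity)]
    have h3 : (1 : ℝ) ≤ N * C₀ * L := by
      have h4 : (1 : ℝ) ≤ N * C₀ := by nlinarith
      nlinarith
    have h5 : e / 2 * (8 * N * C₀ * L) = 4 * e * (N * C₀ * L) := by ring
    rw [h5]
    have h6 : e * e ≤ 4 * e := by nlinarith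
    have h7 : 4 * e * 1 ≤ 4 * e * (N * C₀ * L) := mul_le_mul_of_nonneg_left h3 (by positivity)
    linarith
  obtain ⟨g1, g2⟩ := N43_exp (N * m) D₀ e he0 he1 hK1 hKD h2'
  obtain ⟨X1, hX1⟩ := E1_up (N * m) L hL1 s e t₀ e hsp hsK he0 (by linarith) ht₀p
    he0 D₀ W A₀ C hKD
  obtain ⟨X2, hX2⟩ := E2_low (N * m) L hK1 hL1 hLD hPNT s e t₀ e hsp (by linarith)
    (by linarith) ht₀p hLδ he0 (by linarith) D₀ W A₀ C h2'
  have hLδ4 : (2 : ℝ) ^ L * t₀ ≤ e / 4 := by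
    have h1 : ((N * m : ℕ) : ℝ) = N * 2 ^ L := by rw [hm]; push_cast; ring
    have h2 : (2 : ℝ) ^ L * t₀ = e * e / (8 * N * C₀ * L) := by
      rw [ht₀, h1]
      field_simp
    rw [h2]
    rw [div_le_iff₀ (by positivity)]
    have h3 : (1 : ℝ) ≤ N * C₀ * L := by
      have h4 : (1 : ℝ) ≤ N * C₀ := by nlinarith
      nlinarith
    have h5 : e / 4 * (8 * N * C₀ * L) = 2 * e * (N * C₀ * L) := by ring
    rw [h5]
    have h6 : e * e ≤ 2 * e := by nlinarith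
    have h7 : 2 * e * 1 ≤ 2 * e * (N * C₀ * L) := mul_le_mul_of_nonneg_left h3 (by positivity)
    linarith
  have hsK' : s * Real.log ((N * m : ℕ) + 1) ≤ 1 / 10 ^ 5 := by
    have h1 : Real.log (((N * m : ℕ) : ℝ) + 1) ≤ (N * m : ℕ) + 1 := by
      have := Real.log_le_sub_one_of_pos (x := ((N * m : ℕ) : ℝ) + 1) (by linarith)
      linarith
    calc s * Real.log ((N * m : ℕ) + 1) ≤ s * ((N * m : ℕ) + 1) :=
          mul_le_mul_of_nonneg_left h1 hsp.le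
      _ = e / 10 := by rw [hs]; field_simp
      _ ≤ 1 / 10 ^ 5 := by
          have : (1 / 10 ^ 21 : ℝ) ≤ 1 / 10 ^ 5 := by norm_num
          linarith
  have hpar : Par (N * m) L D₀ s e t₀ e₀ :=
    { hK := hK2
      hL := hL1
      hs := hsp
      hδ := he0
      ht₀ := ht₀p
      hsδ := by linarith
      hsK := hsK'
      hLδ := hLδ4
      he := by linarith
      hδe := by linarith
      hD := by
        have hD0 : (0 : ℝ) ≤ D₀ := Nat.cast_nonneg _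
        have h1 : 2 * e * (D₀ : ℝ) ≤ e₀ * D₀ := mul_le_mul_of_nonneg_right hee hD0
        linarith }
  obtain ⟨X3, hX3⟩ := hE3 (N * m) L D₀ s e t₀ hpar W A₀ C
  obtain ⟨X4, hX4⟩ := hN (N * m) D₀ W A₀ C e t₀ ht₀p
  obtain ⟨X5, hX5⟩ := kappa_ge (N * m) s e hsp he0 D₀ W A₀ C
  obtain ⟨X6, hX6⟩ := q_ge (N * m) s hsp
  refine ⟨max (max (max X1 X2) (max X3 X4)) (max (max X5 X6) 3), fun c hc hx => ?_⟩
  simp only [max_le_iff] at hx
  obtain ⟨⟨⟨x1, x2⟩, x3, x4⟩, ⟨x5, x6⟩, x7⟩ := hx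
  have hxr : (3 : ℝ) ≤ c.x := by exact_mod_cast x7
  have hlx : 0 < Real.log c.x := Real.log_pos (by linarith)
  obtain ⟨k1, k2⟩ := kappa_01 c W
  have hP : ∀ p ∈ c.P W e, p.Prime := fun p hp => by
    unfold Cfg.P Cfg.PZ at hp
    exact (mem_filter.1 hp).2.1
  have e1 := hX1 c hc x1
  have e5 := hX5 c hc x5
  obtain ⟨e6, e6'⟩ := hX6 c D₀ W A₀ C hc hKD x6
  obtain ⟨u1, u2, u3, u4⟩ := s12U (c.P W e) c.x L t₀ e (c.κ W * Real.log c.x)
    (C₀ * (c.κ W * Real.log c.x)) hP (by omega) ht₀p hL1 (hLδ.trans (by linarith)) (by positivity)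
    (fun t h1 h2 => Nz_low c W e t (by omega) (ht₀p.le.trans h1) h2 (by linarith))
    (fun t h1 h2 => hX4 c hc x4 t h1 (h2.trans (by linarith)))
  obtain ⟨v1, v2⟩ := U_ge_one (c.P W e) hP c.x L t₀ (by omega) hL1 ht₀p.le
  set U1' := U1 (c.P W e) c.x L t₀ with hU1'
  set U2' := U2 (c.P W e) c.x L t₀ with hU2'
  set κ := c.κ W with hκ
  set lx := Real.log c.x with hlxd
  have h3 : 2 * ((N * m : ℕ) : ℝ) * U2t (c.P W e) c.x L t₀ ≤ e * e * U2' := by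
    have ee : 2 * ((N * m : ℕ) : ℝ) * (4 * (C₀ * (κ * lx)) * L * t₀ ^ 2) =
        e * e * (κ * lx * t₀) := by
      have : t₀ ^ 2 = t₀ * (e * e / (8 * (N * m : ℕ) * C₀ * L)) := by rw [← ht₀]; ring
      rw [this]
      field_simp
      ring
    calc 2 * ((N * m : ℕ) : ℝ) * U2t (c.P W e) c.x L t₀
        ≤ 2 * ((N * m : ℕ) : ℝ) * (4 * (C₀ * (κ * lx)) * L * t₀ ^ 2) :=
          mul_le_mul_of_nonneg_left u4 (by positivity)
      _ = e * e * (κ * lx * t₀) := ee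
      _ ≤ _ := mul_le_mul_of_nonneg_left u2 (by positivity)
  have e2 := hX2 c hc x2 h3
  have hConc : Conc c W L e t₀ e₀ := by
    show 4 * ((N * m : ℕ) : ℝ) * U2t (c.P W e) c.x L t₀ ≤ e₀ * e * U2 (c.P W e) c.x L t₀
    rw [← hU2']
    have h4 : 2 * e * (e * U2') ≤ e₀ * (e * U2') :=
      mul_le_mul_of_nonneg_right hee (by positivity)
    linarith
  have e3 := hX3 c hc x3 hConc
  have hW0 : (0 : ℝ) < W := by exact_mod_cast hc.hW
  have hφ : (0 : ℝ) < Nat.totient W := by exact_mod_cast Nat.totient_pos.2 hc.hW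
  have hX : 0 < c.X W := by
    unfold Cfg.X
    positivity
  have hrW : 0 < rW W := by
    unfold rW
    positivity
  have hq1 : 0 < c.q1 W s := lt_of_lt_of_le (by positivity) e6
  have hq2 : 0 < c.q2 W s := lt_of_lt_of_le hq1 e6'
  have hxW : (c.x : ℝ) / W = c.X W * rW W * lx := by
    unfold Cfg.X rW
    rw [← hlxd]
    field_simp
  have hr : 0 ≤ rt (c.P₀ W s) := (rt_01 _).1
  rw [hxW, q1_eq] at e1
  set g := Real.exp (2 * (N * m : ℕ) / D₀) with hg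
  set q2 := c.q2 W s with hq2d
  set r := rt (c.P₀ W s) with hrd
  set X := c.X W with hXd
  have hr0 : 0 < r := by
    have h := hq1
    rw [q1_eq] at h
    exact pos_of_mul_pos_right (a := q2) (by simpa [hq2d, hrd] using h) hq2.le
  have hU1p : 0 < U1' := by linarith
  have hU2p : 0 < U2' := by linarith
  have hgp : 0 < g := by linarith
  have h4e : 0 < 1 - 4 * e := by linarith
  have h2e : 0 < 1 / 4 - 2 * e := by linarith
  have hT := ineq_T3 e he0 hes (N * m) hK2 g (rW W) r κ lx X q2 U1' U2' g1 g2 hrW hr k1 hlx hX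
    hq2.le hU1p hU2p e5
  have h6 := ineq_6' η e hη hη1 he N (N * m) L hN1 hK1 C₀ t₀ g (rW W) r κ lx X q2 U1' U2' hC₀ hL
    ht₀ g1 g2 hrW hr k1 hlx hX hq2.le u1 hU2p u3 e5
  set T1 : ℝ := (g + e) * (X * rW W * lx) * (q2 * r) * U2' ^ (N * m) with hT1d
  set T2 : ℝ := (1 - 4 * e) * X * q2 * U1' ^ 2 * U2' ^ (N * m - 1) with hT2d
  set T3 : ℝ := (4 - 1 / 10 ^ 17) * (X * q2 * (U1' ^ 4 * U2' ^ (N * m - 2) / (κ * lx))) with hT3d
  have hT1p : 0 < T1 := by positivity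
  have hT2p : 0 < T2 := by positivity
  have hT3p : 0 < T3 := by
    have h7 : (0 : ℝ) < 4 - 1 / 10 ^ 17 := by norm_num
    exact mul_pos h7 (by positivity)
  have hT3H : (4 - 1 / 10 ^ 17) * Hm c W L s e t₀ = T3 := rfl
  set w : ℕ → ℝ := c.w W L s e t₀ with hw
  have hw0 : ∀ z, 0 ≤ w z := fun z => by
    rw [hw]
    unfold Cfg.w
    split_ifs
    · positivity
    · exact le_rfl
  set S : ℝ := ∑ z ∈ c.dom W, w z with hS
  have hi0 : Fin (N * m) := ⟨0, by omega⟩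
  have hS0 : 0 < S := by
    have h1 := e2 hi0
    have h2 : ∑ z ∈ (c.dom W).filter (fun z => (c.a hi0 * z + c.b hi0).Prime), w z ≤ S :=
      sum_le_sum_of_subset_of_nonneg (filter_subset _ _) (fun z _ _ => hw0 z)
    linarith
  have key : ∀ k : Fin N, (1 / 4 + 1 / 10 ^ 19) * T1 ≤
        ∑ z ∈ (c.dom W).filter (fun z => ∃ i : Fin (N * m), (i : ℕ) / m = (k : ℕ) ∧
          (c.a i * z + c.b i).Prime), w z := by
    intro k
    classical
    set I : Finset (Fin (N * m)) := univ.filter (fun i => (i : ℕ) / m = (k : ℕ)) with hI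
    have hcard : #I = m := N43_card N m hm0 k
    have hclu := cs_cluster (K := N * m) (c.dom W) w hw0 I
      (fun z i => (c.a i * z + c.b i).Prime)
    have hset : (c.dom W).filter (fun z => ∃ i ∈ I, (c.a i * z + c.b i).Prime) =
        (c.dom W).filter (fun z => ∃ i : Fin (N * m), (i : ℕ) / m = (k : ℕ) ∧
          (c.a i * z + c.b i).Prime) := by
      refine filter_congr fun z _ => ?_
      constructor
      · rintro ⟨i, hi, h⟩
        exact ⟨i, (mem_filter.1 hi).2, h⟩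
      · rintro ⟨i, hi, h⟩
        exact ⟨i, mem_filter.2 ⟨mem_univ _, hi⟩, h⟩
    rw [hset] at hclu
    refine num_cluster3 m (1 / 4 + 1 / 10 ^ 19) (1 / 10 ^ 18) (4 - 6 / 10 ^ 18) _ _ _ T1 T2 T3
      (by norm_num) (by norm_num) (by norm_num) (by norm_num) hmr hT1p hT2p
      (sum_nonneg fun z _ => hw0 z) ?_ ?_ hclu hT ?_
    · calc (m : ℝ) * T2 = ∑ _i ∈ I, T2 := by
            rw [sum_const, nsmul_eq_mul, hcard]
        _ ≤ _ := sum_le_sum fun i _ => e2 i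
    · calc ∑ i ∈ I, ∑ j ∈ I.filter (fun j => i ≠ j),
          ∑ z ∈ (c.dom W).filter (fun z => (c.a i * z + c.b i).Prime ∧ (c.a j * z + c.b j).Prime),
          w z
          ≤ ∑ _i ∈ I, (m * T3) := by
            refine sum_le_sum fun i _ => ?_
            calc ∑ j ∈ I.filter (fun j => i ≠ j),
                  ∑ z ∈ (c.dom W).filter (fun z => (c.a i * z + c.b i).Prime ∧
                    (c.a j * z + c.b j).Prime), w z
                ≤ ∑ _j ∈ I.filter (fun j => i ≠ j), T3 :=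
                  sum_le_sum fun j hj => e3 i j (mem_filter.1 hj).2
              _ = #(I.filter (fun j => i ≠ j)) * T3 := by
                  rw [sum_const, nsmul_eq_mul]
              _ ≤ m * T3 := by
                  have h1 : #(I.filter (fun j => i ≠ j)) ≤ m :=
                    (card_le_card (filter_subset _ _)).trans hcard.le
                  have h2 : ((#(I.filter (fun j => i ≠ j)) : ℕ) : ℝ) ≤ m := by exact_mod_cast h1
                  exact mul_le_mul_of_nonneg_right h2 hT3p.le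
        _ = (m : ℝ) ^ 2 * T3 := by
            rw [sum_const, nsmul_eq_mul, hcard]
            ring
    · have h7 : N * T1 ≤ N * (η * (m * T2)) := by
        calc N * T1 ≤ η * (((N * m : ℕ) : ℝ) * T2) := h6
          _ = N * (η * (m * T2)) := by rw [hKcast]; ring
      refine (le_of_mul_le_mul_left h7 hN0).trans ?_
      exact mul_le_mul_of_nonneg_right (by linarith) (by positivity)
  refine ⟨fun z => w z / S, fun z => div_nonneg (hw0 z) hS0.le, ?_, fun k => ?_⟩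
  · rw [← sum_div, ← hS, div_self hS0.ne']
  · rw [← sum_div, le_div_iff₀ hS0]
    have h1 := key k
    exact (mul_le_mul_of_nonneg_left e1 (by norm_num)).trans h1

theorem GMcfg3 (hLD : ∀ t : ℝ, t < 1 / 2 → LD t) (hPNT : PNT) (N : ℕ) (hN : 1 ≤ N) :
    ∃ m D₀ : ℕ, 0 < m ∧
    ∀ W A₀ C : ℕ, ∃ X₀ : ℕ, ∀ c : Cfg (N * m), c.Ok D₀ W A₀ C → X₀ ≤ c.x →
      ∃ w : ℕ → ℝ, (∀ z, 0 ≤ w z) ∧ ∑ z ∈ c.dom W, w z = 1 ∧ ∀ k : Fin N, 1 / 4 + 1 / 10 ^ 19 ≤
        ∑ z ∈ (c.dom W).filter (fun z => ∃ i : Fin (N * m), (i : ℕ) / m = (k : ℕ) ∧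
          (c.a i * z + c.b i).Prime), w z := by
  obtain ⟨e₀, he₀, hE3⟩ := E3_four hLD hPNT
  obtain ⟨C₀, hC₀, hNz⟩ := Nz_up
  set e : ℝ := min (e₀ / 2) (1 / 10 ^ 21) with he
  have he0 : 0 < e := lt_min (by linarith) (by norm_num)
  have he1 : 2 * e ≤ e₀ := by
    have := min_le_left (e₀ / 2) (1 / 10 ^ 21 : ℝ)
    rw [← he] at this
    linarith
  have he2 : e ≤ 1 / 10 ^ 21 := min_le_right _ _
  obtain ⟨L, hL⟩ := exists_nat_ge (10 ^ 8 * N * C₀ ^ 2 / (1000 * e) ^ 3)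
  obtain ⟨D, hD⟩ := exists_nat_ge (8 * ((N * 2 ^ L : ℕ) : ℝ) ^ 2 / e)
  refine ⟨2 ^ L, D + (N * 2 ^ L + 1), by positivity, fun W A₀ C => ?_⟩
  refine N43_core hLD hPNT (1000 * e) e e₀ (by positivity) ?_ (by ring) he1 he2 hE3 N hN C₀ hC₀ hNz
    (2 ^ L) L _ rfl hL (by omega) ?_ W A₀ C
  · have h1 : (1 / 10 ^ 21 : ℝ) ≤ 1 / 1000 := by norm_num
    linarith
  rw [div_le_iff₀ he0] at hD
  have h1 : e * (D : ℝ) ≤ e * ((D + (N * 2 ^ L + 1) : ℕ) : ℝ) := by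
    refine mul_le_mul_of_nonneg_left ?_ he0.le
    exact_mod_cast Nat.le_add_right _ _
  linarith

end PoolCL
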