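import Pool.Agent.Work.MP_70e905_nt.CL3.N43
import Pool.Agent.Work.MP_70e905_nt.CL3.Defs
import Pool.Agent.Work.MP_70e905_nt.Q4.Clus

/-!
# Module CL3.N53 : `ClusterP N (1/4 + 10^(-19))` and `ClusterPlus 3`

As `CL/N5.lean`; four events of probability more than `1/4` are not disjoint.
-/

set_option autoImplicit false

namespace PoolCL

open Finset Pool.Agent.Work.MP_70e905_nt.MT PoolQ4

theorem clusterP3 (hLD : ∀ t : ℝ, t < 1 / 2 → LD t) (hPNT : PNT) (N : ℕ) (hN : 1 ≤ N) :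
    ClusterP N (1 / 4 + 1 / 10 ^ 19) := by
  obtain ⟨m, D₀, hm, h⟩ := GMcfg3 hLD hPNT N hN
  refine ⟨m, D₀, hm, fun W A₀ C hW hDW => ?_⟩
  obtain ⟨X₀, hX⟩ := h W A₀ C
  refine ⟨X₀, fun x v a b hx ha haW hb hcop hdif => ?_⟩
  set e : Fin N × Fin m ≃ Fin (N * m) := finProdFinEquiv with he
  have hdiv : ∀ i : Fin (N * m), ((e.symm i).1 : ℕ) = (i : ℕ) / m := fun i => rfl
  obtain ⟨w, hw0, hw1, hw2⟩ := hX ⟨x, v, fun i => a (e.symm i), fun i => b (e.symm i)⟩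
    { hW := hW
      hDW := hDW
      ha := fun i => (ha _).1
      haA := fun i => (ha _).2
      haW := fun i => haW _
      hb := fun i => hb _
      hcop := fun i => hcop _
      hdif := fun i j hij => hdif _ _ (fun h => hij (e.symm.injective h)) } hx
  refine ⟨w, hw0, hw1, fun c => ?_⟩
  refine (hw2 c).trans ?_
  refine sum_le_sum_of_subset_of_nonneg ?_ (fun z _ _ => hw0 z)
  intro z hz
  unfold Cfg.dom at hz
  rw [mem_filter, mem_filter] at hz
  obtain ⟨⟨h1, h2⟩, i, hi, h3⟩ := hz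
  refine mem_filter.2 ⟨h1, h2, (e.symm i).2, ?_⟩
  have h4 : (e.symm i).1 = c := by
    apply Fin.ext
    rw [hdiv, hi]
  rw [← h4]
  exact h3

theorem clusterPlus_of_P (K : ℕ) (p : ℝ) (hp : 1 < ((K : ℝ) + 1) * p) (h : ClusterP (K + 1) p) :
    ClusterPlus K := by
  classical
  obtain ⟨L, D₁, hL, h⟩ := h
  refine ⟨L, D₁, hL, fun W A₀ C hW hD => ?_⟩
  obtain ⟨X₀, hX⟩ := h W A₀ C hW hD
  refine ⟨X₀, fun x v a b hx h1 h2 h3 h4 h5 => ?_⟩
  obtain ⟨w, hw0, hw1, hw2⟩ := hX x v a b hx h1 h2 h3 h4 h5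
  by_contra hcon
  push Not at hcon
  have hle : ∑ c : Fin (K + 1), ∑ z ∈ (Ioc x (2 * x)).filter (fun z => z ≡ v [MOD W] ∧
      ∃ i : Fin L, (a (c, i) * z + b (c, i)).Prime), w z ≤
      ∑ z ∈ (Ioc x (2 * x)).filter (fun z => z ≡ v [MOD W]), w z := by
    have e1 : ∀ c : Fin (K + 1), ∑ z ∈ (Ioc x (2 * x)).filter (fun z => z ≡ v [MOD W] ∧
        ∃ i : Fin L, (a (c, i) * z + b (c, i)).Prime), w z =
        ∑ z ∈ (Ioc x (2 * x)).filter (fun z => z ≡ v [MOD W]),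
          if (∃ i : Fin L, (a (c, i) * z + b (c, i)).Prime) then w z else 0 := by
      intro c
      rw [← sum_filter, filter_filter]
    simp only [e1]
    rw [sum_comm]
    refine sum_le_sum fun z hz => ?_
    obtain ⟨hz1, hz2⟩ := mem_filter.1 hz
    obtain ⟨hz3, hz4⟩ := mem_Ioc.1 hz1
    rw [← sum_filter, sum_const, nsmul_eq_mul]
    have hcard : #{c : Fin (K + 1) | ∃ i : Fin L, (a (c, i) * z + b (c, i)).Prime} ≤ 1 := by
      refine card_le_one.2 fun c hc d hd => ?_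
      by_contra hne
      obtain ⟨i, hi⟩ := (mem_filter.1 hc).2
      obtain ⟨j, hj⟩ := (mem_filter.1 hd).2
      exact hcon z hz3 hz4 hz2 (c, i) (d, j) hne hi hj
    have hcard' : ((#{c : Fin (K + 1) | ∃ i : Fin L, (a (c, i) * z + b (c, i)).Prime} : ℕ) : ℝ) ≤ 1 := by
      exact_mod_cast hcard
    calc _ ≤ 1 * w z := mul_le_mul_of_nonneg_right hcard' (hw0 z)
      _ = w z := one_mul _
  have hge : ∑ _c : Fin (K + 1), p ≤ ∑ c : Fin (K + 1), ∑ z ∈ (Ioc x (2 * x)).filter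
      (fun z => z ≡ v [MOD W] ∧ ∃ i : Fin L, (a (c, i) * z + b (c, i)).Prime), w z :=
    sum_le_sum fun c _ => hw2 c
  rw [sum_const, card_univ, Fintype.card_fin, nsmul_eq_mul] at hge
  push_cast at hge
  rw [hw1] at hle
  linarith

end PoolCL
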