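import Pool.Agent.Work.MP_70e905_nt.Q4.Clus
import Pool.Agent.Work.MP_70e905_nt.Q4.StonePairs
import Pool.Agent.Work.MP_70e905_nt.Q4.SubsetAvg

/-!
# Module CL3.UnivPC : pairs of an admissible set, proportion `1 / K`, shifts up to `C x`

As `Q4/Univ.lean` with the property that `z + a` and `z + b` are prime for some `z` in `(x, 2x]`.
-/

set_option autoImplicit false

namespace PoolCL

open Finset Classical PoolQ4

private theorem univPC_primorial_pos (D : ℕ) : 0 < primorial D := by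
  unfold primorial
  exact Finset.prod_pos fun p hp => (mem_filter.1 hp).2.pos

/-- The number estimate: `(c - ε) T ≤ (c - ε/2) (T - m^2)` if `m^2 c ≤ (ε/2) T`. -/
private theorem univPC_num {c ε T m : ℝ} (hε : 0 < ε) (hm : m ^ 2 * c ≤ ε / 2 * T) :
    (c - ε) * T ≤ (c - ε / 2) * (T - m ^ 2) := by
  nlinarith [sq_nonneg m]

private theorem univPC_off (K : ℕ) (hK : 1 ≤ K) (HC : ClusterPlus K) (ε : ℝ) (hε : 0 < ε) :
    ∃ k₀ : ℕ, ∀ C : ℕ, ∃ X₀ : ℕ, ∀ (x : ℕ) (H : Finset ℕ), X₀ ≤ x → (∀ h ∈ H, h ≤ C * x) →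
      Admissible H → k₀ ≤ #H →
      (1 / (K : ℝ) - ε) * ((#H : ℝ) * ((#H : ℝ) - 1)) ≤
        (#{p ∈ H.offDiag | ∃ z, x < z ∧ z ≤ 2 * x ∧ (z + p.1).Prime ∧ (z + p.2).Prime} : ℝ) := by
  obtain ⟨L, D₁, hL, HC⟩ := HC
  obtain ⟨m₀, hm₀, hS⟩ := stonePairs K L hK (half_pos hε)
  obtain ⟨k₁, hk₁⟩ := exists_nat_ge (2 * (m₀ : ℝ) ^ 2 / ε)
  refine ⟨k₁ + 2, fun C => ?_⟩
  obtain ⟨X₀, hX⟩ := HC (primorial D₁) 1 C (univPC_primorial_pos _) dvd_rfl
  refine ⟨X₀, fun x H hXx hx hH hN2 => ?_⟩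
  have hNr : (k₁ : ℝ) + 2 ≤ (#H : ℝ) := by exact_mod_cast hN2
  have hk0 : (0 : ℝ) ≤ (k₁ : ℝ) := Nat.cast_nonneg _
  have hT0 : 0 ≤ (#H : ℝ) * ((#H : ℝ) - 1) := by nlinarith
  have hT1 : (k₁ : ℝ) ≤ (#H : ℝ) * ((#H : ℝ) - 1) := by nlinarith
  rcases lt_or_ge (1 / (K : ℝ) - ε / 2) 0 with hneg | hpos
  · have h1 : (1 / (K : ℝ) - ε) * ((#H : ℝ) * ((#H : ℝ) - 1)) ≤ 0 :=
      mul_nonpos_of_nonpos_of_nonneg (by linarith) hT0
    exact h1.trans (Nat.cast_nonneg _)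
  · have key := subsetAvg H m₀ hm₀
      (fun a b => ∃ z, x < z ∧ z ≤ 2 * x ∧ (z + a).Prime ∧ (z + b).Prime)
      (fun _ _ => False) (1 / (K : ℝ) - ε / 2) hpos (fun A hA hAc _ => by
        refine hS A (fun a b => ∃ z, x < z ∧ z ≤ 2 * x ∧ (z + a).Prime ∧ (z + b).Prime)
          (fun a b hab => ?_) hAc ?_
        · obtain ⟨z, h1, h2, h3, h4⟩ := hab
          exact ⟨z, h1, h2, h4, h3⟩
        · intro h hinj hhA
          obtain ⟨v, hv⟩ := exists_coprime_shift hH D₁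
          obtain ⟨z, hz1, hz2, -, s, t, hst, hs, ht⟩ := hX x v (fun _ => 1) (fun i => h i) hXx
            (fun _ => ⟨le_rfl, le_rfl⟩)
            (fun _ p hp hd => absurd (Nat.dvd_one.1 hd) hp.one_lt.ne')
            (fun i => by simpa using hx _ (hA (hhA i)))
            (fun i => by simpa using hv _ (hA (hhA i)))
            (fun i j hij hEq => by
              have h1 : h j = h i := by simpa using hEq
              exact hij (hinj h1).symm)
          refine ⟨s, t, hst, z, hz1, hz2, ?_, ?_⟩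
          · simpa using hs
          · simpa using ht)
    have hr : #{p ∈ H.offDiag | (fun _ _ => False : ℕ → ℕ → Prop) p.1 p.2} = 0 := by
      simp
    rw [hr] at key
    simp only [Nat.cast_zero, zero_add, mul_one] at key
    refine le_trans (univPC_num hε ?_) key
    have hK1 : 1 / (K : ℝ) ≤ 1 := by
      rw [div_le_one (by exact_mod_cast hK)]
      exact_mod_cast hK
    have h2 : 2 * (m₀ : ℝ) ^ 2 ≤ ε * ((#H : ℝ) * ((#H : ℝ) - 1)) := by
      have h3 : 2 * (m₀ : ℝ) ^ 2 / ε ≤ (#H : ℝ) * ((#H : ℝ) - 1) := hk₁.trans hT1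
      rw [div_le_iff₀ hε] at h3
      linarith
    have h4 : (m₀ : ℝ) ^ 2 * (1 / (K : ℝ)) ≤ (m₀ : ℝ) ^ 2 := by
      have := sq_nonneg (m₀ : ℝ)
      nlinarith
    linarith

/-- At least the proportion `1/K - ε` of the two element subsets of a large admissible set can be
moved to two primes by a `z` in `(x, 2x]`. -/
theorem univ_pairs_C (K : ℕ) (hK : 1 ≤ K) (HC : ClusterPlus K) (ε : ℝ) (hε : 0 < ε) :
    ∃ k₀ : ℕ, ∀ C : ℕ, ∃ X₀ : ℕ, ∀ (x : ℕ) (H : Finset ℕ), X₀ ≤ x → (∀ h ∈ H, h ≤ C * x) →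
      Admissible H → k₀ ≤ #H →
      (1 / (K : ℝ) - ε) * ((#H).choose 2 : ℝ) ≤
        (#{S ∈ H.powersetCard 2 | ∃ z, x < z ∧ z ≤ 2 * x ∧ ∀ h ∈ S, (z + h).Prime} : ℝ) := by
  obtain ⟨k₀, h⟩ := univPC_off K hK HC ε hε
  refine ⟨k₀, fun C => ?_⟩
  obtain ⟨X₀, h⟩ := h C
  refine ⟨X₀, fun x H hXx hx hH hk => ?_⟩
  have h1 := h x H hXx hx hH hk
  have h2 : #{p ∈ H.offDiag | ∃ z, x < z ∧ z ≤ 2 * x ∧ (z + p.1).Prime ∧ (z + p.2).Prime} ≤
      2 * #{S ∈ H.powersetCard 2 | ∃ z, x < z ∧ z ≤ 2 * x ∧ ∀ h ∈ S, (z + h).Prime} := by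
    refine card_le_mul_card_image_of_maps_to (f := fun p : ℕ × ℕ => ({p.1, p.2} : Finset ℕ)) ?_ _ ?_
    · intro p hp
      obtain ⟨hp1, z, hz1, hz2, hz3, hz4⟩ := mem_filter.1 hp
      rw [mem_offDiag] at hp1
      refine mem_filter.2 ⟨mem_powersetCard.2 ⟨?_, card_pair hp1.2.2⟩, z, hz1, hz2, ?_⟩
      · intro y hy
        simp only [mem_insert, mem_singleton] at hy
        rcases hy with rfl | rfl
        · exact hp1.1
        · exact hp1.2.1
      · intro y hy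
        simp only [mem_insert, mem_singleton] at hy
        rcases hy with rfl | rfl
        · exact hz3
        · exact hz4
    · intro S _
      rcases (({p ∈ H.offDiag | ∃ z, x < z ∧ z ≤ 2 * x ∧ (z + p.1).Prime ∧ (z + p.2).Prime} :
        Finset (ℕ × ℕ)).filter (fun p => ({p.1, p.2} : Finset ℕ) = S)).eq_empty_or_nonempty
        with h0 | ⟨p₀, hp₀⟩
      · rw [h0]
        simp
      · obtain ⟨-, hp2⟩ := mem_filter.1 hp₀
        refine (card_le_card (t := {p₀, (p₀.2, p₀.1)}) ?_).trans card_le_two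
        intro p hp
        obtain ⟨-, hp3⟩ := mem_filter.1 hp
        have h3 : ({p.1, p.2} : Finset ℕ) = {p₀.1, p₀.2} := hp3.trans hp2.symm
        have h3a : p.1 ∈ ({p₀.1, p₀.2} : Finset ℕ) := by rw [← h3]; simp
        have h3b : p.2 ∈ ({p₀.1, p₀.2} : Finset ℕ) := by rw [← h3]; simp
        have h3c : p₀.1 ∈ ({p.1, p.2} : Finset ℕ) := by rw [h3]; simp
        have h3d : p₀.2 ∈ ({p.1, p.2} : Finset ℕ) := by rw [h3]; simp
        simp only [mem_insert, mem_singleton] at h3a h3b h3c h3d ⊢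
        rcases h3a with h4 | h4 <;> rcases h3b with h5 | h5
        · left
          refine Prod.ext h4 ?_
          rcases h3d with h6 | h6
          · rw [h5, ← h4, ← h6]
          · exact h6.symm
        · left
          exact Prod.ext h4 h5
        · right
          exact Prod.ext h4 h5
        · left
          refine Prod.ext ?_ h5
          rcases h3c with h6 | h6
          · exact h6.symm
          · rw [h4, ← h5, ← h6]
  have h3 : (#{p ∈ H.offDiag | ∃ z, x < z ∧ z ≤ 2 * x ∧ (z + p.1).Prime ∧ (z + p.2).Prime} : ℝ) ≤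
      2 * (#{S ∈ H.powersetCard 2 | ∃ z, x < z ∧ z ≤ 2 * x ∧ ∀ h ∈ S, (z + h).Prime} : ℝ) := by
    exact_mod_cast h2
  rw [Nat.cast_choose_two]
  linarith

end PoolCL
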