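import Pool.Agent.Work.MP_70e905_nt.CL3.Defs
import Pool.Agent.Work.MP_70e905_nt.CL.Gam
import Pool.Agent.Work.MP_70e905_nt.CL.BlowR
import Pool.Agent.Work.MP_70e905_nt.CL.UnivR

/-!
# CL3.UnivRP : simultaneously hit `r`-tuples of clusters and `r`-subsets of admissible sets, for any
hitting probability `p` of the cluster lemma (same proofs as `CL.Patt`, `CL.UnivR`).
-/

namespace PoolCL

open Finset Classical PoolQ4

theorem patt_p (p : ℝ) (hp : 0 < p) (HC : ∀ N : ℕ, 1 ≤ N → ClusterP N p) (r : ℕ) (hr : 1 ≤ r) (ε : ℝ)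
    (hε : 0 < ε) : ∃ N L D₁ : ℕ, 1 ≤ N ∧ 1 ≤ L ∧
    ∀ W A₀ C : ℕ, 0 < W → primorial D₁ ∣ W → ∃ X₀ : ℕ,
    ∀ (x v : ℕ) (a b : Fin N × Fin L → ℕ), X₀ ≤ x →
      (∀ i, 1 ≤ a i ∧ a i ≤ A₀) → (∀ i, ∀ p : ℕ, p.Prime → p ∣ a i → p ∣ W) →
      (∀ i, b i ≤ C * x) → (∀ i, (a i * v + b i).Coprime W) →
      (∀ i j, i ≠ j → a i * b j ≠ a j * b i) →
      (p ^ (r - 1) - ε) * (N : ℝ) ^ r ≤
        (#{t : Fin r → Fin N | Function.Injective t ∧ ∃ z, x < z ∧ z ≤ 2 * x ∧ z ≡ v [MOD W] ∧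
          ∀ i, ∃ l : Fin L, (a (t i, l) * z + b (t i, l)).Prime} : ℝ) := by
  obtain ⟨N, hN⟩ := exists_nat_ge ((r : ℝ) ^ 2 / (p * ε) + 1)
  have hNr : (1 : ℝ) ≤ N := by
    refine le_trans ?_ hN
    have : (0 : ℝ) ≤ (r : ℝ) ^ 2 / (p * ε) := by positivity
    linarith
  have hN1 : 1 ≤ N := by exact_mod_cast hNr
  obtain ⟨L, D₁, hL, hcl⟩ := HC N hN1
  refine ⟨N, L, D₁, hN1, hL, ?_⟩
  intro W A₀ C hW hD
  obtain ⟨X₀, hX₀⟩ := hcl W A₀ C hW hD
  refine ⟨X₀, ?_⟩
  intro x v a b hx h1 h2 h3 h4 h5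
  obtain ⟨w, hw0, hw1, hw2⟩ := hX₀ x v a b hx h1 h2 h3 h4 h5
  have key := gamma_count N r hr p hp ((Ioc x (2 * x)).filter (fun z => z ≡ v [MOD W]))
    w hw0 hw1 (fun z => univ.filter (fun c => ∃ i : Fin L, (a (c, i) * z + b (c, i)).Prime))
    (fun c => (hw2 c).trans (le_of_eq (sum_congr (by
      ext z
      simp only [mem_filter, mem_univ, true_and, and_assoc]) (fun _ _ => rfl))))
    (univ.filter (fun t : Fin r → Fin N => Function.Injective t ∧ ∃ z, x < z ∧ z ≤ 2 * x ∧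
      z ≡ v [MOD W] ∧ ∀ i, ∃ l : Fin L, (a (t i, l) * z + b (t i, l)).Prime))
    (by
      intro z hz t ht hti
      obtain ⟨hz1, hz2⟩ := mem_filter.1 hz
      obtain ⟨hz3, hz4⟩ := mem_Ioc.1 hz1
      exact mem_filter.2 ⟨mem_univ _, ht, z, hz3, hz4, hz2, fun i => (mem_filter.1 (hti i)).2⟩)
  refine le_trans ?_ key
  have hNp : (0 : ℝ) ≤ (N : ℝ) ^ (r - 1) := by positivity
  have e1 : (r : ℝ) ^ 2 * (N : ℝ) ^ (r - 1) / p ≤ ε * (N : ℝ) ^ r := by
    rw [div_le_iff₀ hp]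
    have e2 : (r : ℝ) ^ 2 ≤ p * ε * N := by
      have e3 : (r : ℝ) ^ 2 / (p * ε) ≤ N := by linarith
      rw [div_le_iff₀ (by positivity)] at e3
      linarith
    have e4 : (N : ℝ) ^ r = N * (N : ℝ) ^ (r - 1) := by
      rw [← pow_succ', Nat.sub_add_cancel hr]
    rw [e4]
    calc (r : ℝ) ^ 2 * (N : ℝ) ^ (r - 1) ≤ (p * ε * N) * (N : ℝ) ^ (r - 1) :=
          mul_le_mul_of_nonneg_right e2 hNp
      _ = ε * (N * (N : ℝ) ^ (r - 1)) * p := by ring
  linarith

private theorem UnivRP_primorial_pos (D : ℕ) : 0 < primorial D := by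
  unfold primorial
  exact Finset.prod_pos fun p hp => (mem_filter.1 hp).2.pos


theorem univ_rp (p : ℝ) (hp : 0 < p) (hp1 : p ≤ 1) (HC : ∀ N : ℕ, 1 ≤ N → ClusterP N p) (r : ℕ)
    (hr : 1 ≤ r) (ε : ℝ)
    (hε : 0 < ε) : ∃ n₀ : ℕ, ∀ C : ℕ, ∃ x₀ : ℕ, ∀ x : ℕ, x₀ ≤ x → ∀ H : Finset ℕ, Admissible H →
      (∀ h ∈ H, h ≤ C * x) → n₀ ≤ #H →
      (p ^ (r - 1) - ε) * ((#H).choose r : ℝ) ≤
        (#{S ∈ H.powersetCard r | ∃ z, x < z ∧ z ≤ 2 * x ∧ ∀ h ∈ S, (z + h).Prime} : ℝ) := by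
  obtain ⟨N, L, D₁, hN, hL, hpat⟩ := patt_p p hp HC r hr (ε / 2) (half_pos hε)
  obtain ⟨n₀, hn₀⟩ := blowr r N L hN hL (p ^ (r - 1) - ε / 2) (ε / 2) (by
    have : p ^ (r - 1) ≤ 1 := pow_le_one₀ hp.le hp1
    linarith) (half_pos hε)
  refine ⟨n₀, fun C => ?_⟩
  obtain ⟨X₀, hX₀⟩ := hpat (primorial D₁) 1 C (UnivRP_primorial_pos _) dvd_rfl
  refine ⟨X₀, fun x hx H hH hHx hn => ?_⟩
  set n : ℕ := #H with hndef
  set e : Fin n ↪o ℕ := H.orderEmbOfFin rfl with he
  have heH : ∀ i, e i ∈ H := fun i => H.orderEmbOfFin_mem rfl i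
  set G : Finset (Fin r → Fin n) := univ.filter (fun s => Function.Injective s ∧
    ∃ z, x < z ∧ z ≤ 2 * x ∧ ∀ i, (z + e (s i)).Prime) with hG
  have h1 : (p ^ (r - 1) - ε / 2 - ε / 2) * (n : ℝ) ^ r ≤ (#G : ℝ) := by
    refine hn₀ n hn G (fun A hA => ?_)
    obtain ⟨v, hv⟩ := exists_coprime_shift hH D₁
    have h2 := hX₀ x v (fun _ => 1) (fun i => e (A i.1 i.2)) hx
      (fun _ => ⟨le_rfl, le_rfl⟩)
      (fun _ q hq hd => absurd (Nat.dvd_one.1 hd) hq.one_lt.ne')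
      (fun i => by simpa using hHx _ (heH _))
      (fun i => by simpa using hv _ (heH _))
      (fun i j hij hEq => by
        have h1 : e (A j.1 j.2) = e (A i.1 i.2) := by simpa using hEq
        exact hij (hA (e.injective h1)).symm)
    refine h2.trans ?_
    have h3 : #{t : Fin r → Fin N | Function.Injective t ∧ ∃ z, x < z ∧ z ≤ 2 * x ∧
        z ≡ v [MOD primorial D₁] ∧ ∀ i, ∃ l : Fin L, (1 * z + e (A (t i) l)).Prime} ≤
        #{t : Fin r → Fin N | Function.Injective t ∧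
          ∃ l : Fin r → Fin L, (fun i => A (t i) (l i)) ∈ G} := by
      refine card_le_card (fun t ht => ?_)
      obtain ⟨ht1, z, hz1, hz2, _, hz3⟩ := (mem_filter.1 ht).2
      choose l hl using hz3
      refine mem_filter.2 ⟨mem_univ _, ht1, l, mem_filter.2 ⟨mem_univ _, ?_, z, hz1, hz2, ?_⟩⟩
      · intro i j hij
        have h4 := @hA (t i, l i) (t j, l j) hij
        exact ht1 (congrArg Prod.fst h4)
      · intro i
        simpa using hl i
    exact_mod_cast h3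
  -- from tuples to sets
  set F : Finset (Finset ℕ) := {S ∈ H.powersetCard r | ∃ z, x < z ∧ z ≤ 2 * x ∧
    ∀ h ∈ S, (z + h).Prime} with hF
  have h2 : #G ≤ r.factorial * #F := by
    refine card_le_mul_card_image_of_maps_to (f := fun s : Fin r → Fin n =>
      (univ : Finset (Fin r)).image (fun i => e (s i))) ?_ _ ?_
    · intro s hs
      obtain ⟨hs1, z, hz1, hz2, hz3⟩ := (mem_filter.1 hs).2
      refine mem_filter.2 ⟨mem_powersetCard.2 ⟨?_, ?_⟩, z, hz1, hz2, ?_⟩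
      · intro y hy
        obtain ⟨i, _, rfl⟩ := mem_image.1 hy
        exact heH _
      · have hc := card_image_of_injective (univ : Finset (Fin r)) (e.injective.comp hs1)
        rw [card_univ, Fintype.card_fin] at hc
        exact hc
      · intro h hh
        obtain ⟨i, _, rfl⟩ := mem_image.1 hh
        exact hz3 i
    · intro S _
      rcases (G.filter (fun s => (univ : Finset (Fin r)).image (fun i => e (s i)) = S)).eq_empty_or_nonempty
        with h0 | ⟨s₀, hs₀⟩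
      · rw [h0]
        simp
      · obtain ⟨hs1, hs2⟩ := mem_filter.1 hs₀
        have h3 : (G.filter (fun s => (univ : Finset (Fin r)).image (fun i => e (s i)) = S)) ⊆
            (univ : Finset (Equiv.Perm (Fin r))).image (fun σ => fun i => s₀ (σ i)) := by
          intro s hs
          obtain ⟨hs3, hs4⟩ := mem_filter.1 hs
          have hsi := (mem_filter.1 hs3).2.1
          have h4 : ∀ i, ∃ j, s₀ j = s i := by
            intro i
            have h5 : e (s i) ∈ S := by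
              rw [← hs4]
              exact mem_image_of_mem _ (mem_univ i)
            rw [← hs2] at h5
            obtain ⟨j, _, hj⟩ := mem_image.1 h5
            exact ⟨j, e.injective hj⟩
          choose σ hσ using h4
          have hσi : Function.Injective σ := by
            intro i j hij
            apply hsi
            rw [← hσ i, ← hσ j, hij]
          refine mem_image.2 ⟨Equiv.ofBijective σ (Finite.injective_iff_bijective.1 hσi),
            mem_univ _, ?_⟩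
          funext i
          simpa using hσ i
        refine (card_le_card h3).trans (card_image_le.trans ?_)
        rw [card_univ, Fintype.card_perm, Fintype.card_fin]
  rcases lt_or_ge (p ^ (r - 1) - ε) 0 with hneg | hpos
  · exact (mul_nonpos_of_nonpos_of_nonneg hneg.le (Nat.cast_nonneg _)).trans (Nat.cast_nonneg _)
  · have h3 : ((r.factorial : ℕ) : ℝ) * (n.choose r : ℝ) ≤ (n : ℝ) ^ r := by
      have := Nat.descFactorial_le_pow n r
      rw [Nat.descFactorial_eq_factorial_mul_choose] at this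
      exact_mod_cast this
    have h4 : (#G : ℝ) ≤ (r.factorial : ℝ) * (#F : ℝ) := by exact_mod_cast h2
    have h5 : (0 : ℝ) < (r.factorial : ℝ) := by exact_mod_cast Nat.factorial_pos r
    have h6 : (r.factorial : ℝ) * ((p ^ (r - 1) - ε) * (n.choose r : ℝ)) ≤
        (r.factorial : ℝ) * (#F : ℝ) := by
      calc (r.factorial : ℝ) * ((p ^ (r - 1) - ε) * (n.choose r : ℝ))
          = (p ^ (r - 1) - ε) * ((r.factorial : ℝ) * (n.choose r : ℝ)) := by ring
        _ ≤ (p ^ (r - 1) - ε) * (n : ℝ) ^ r := mul_le_mul_of_nonneg_left h3 hpos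
        _ = (p ^ (r - 1) - ε / 2 - ε / 2) * (n : ℝ) ^ r := by ring
        _ ≤ _ := h1.trans h4
    exact le_of_mul_le_mul_left h6 h5

end PoolCL
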